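import Pool.Agent.Helper77.OF4.St

/-!
# MP_7a9ddc_co, project OF4, module C1
-/

set_option autoImplicit false

namespace Pool.Agent.Helper15.OF4.C1

open Equiv Equiv.Perm Pool.Agent.Helper35.PM Pool.Agent.Helper77.HY Pool.Agent.Helper77.OF4

section

variable {V : Type} [Finite V] {G : SimpleGraph V}

theorem fin_dart : Finite G.Dart :=
  Finite.of_injective (SimpleGraph.Dart.toProd : G.Dart → V × V) SimpleGraph.Dart.toProd_injective

open Classical in
/-- the merged vertex map -/
noncomputable def tt (W : Set V) (d : G.Dart) : Option {v : V // v ∉ W} :=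
  if h : d.fst ∈ W then none else some ⟨d.fst, h⟩

omit [Finite V] in
theorem tt_pos {W : Set V} {d : G.Dart} (h : d.fst ∈ W) : tt W d = none := by
  unfold tt
  rw [dif_pos h]

omit [Finite V] in
theorem tt_neg {W : Set V} {d : G.Dart} (h : d.fst ∉ W) : tt W d = some ⟨d.fst, h⟩ := by
  unfold tt
  rw [dif_neg h]

theorem mem_r {R : Rot G} {W : Set V} {r' : Perm G.Dart}
    (hout : ∀ d : G.Dart, d.fst ∉ W → r' d = R.r d) (d : G.Dart) :
    (r' d).fst ∉ W ↔ d.fst ∉ W := by
  have := fin_dart (G := G)
  have h1 : Set.MapsTo r' {d : G.Dart | d.fst ∉ W} {d : G.Dart | d.fst ∉ W} := by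
    intro d hd
    show (r' d).fst ∉ W
    rw [hout d hd, R.fst_r]
    exact hd
  constructor
  · intro h
    have h2 : (r'.symm (r' d)) ∈ {d : G.Dart | d.fst ∉ W} :=
      Equiv.Perm.perm_symm_mapsTo_of_mapsTo r' h1 h
    rw [Equiv.symm_apply_apply] at h2
    exact h2
  · intro h
    exact h1 h

/-- the merged map -/
noncomputable def mm (R : Rot G) (W : Set V) (r' : Perm G.Dart) (hpl : Pl r' SimpleGraph.Dart.symm)
    (hout : ∀ d : G.Dart, d.fst ∉ W → r' d = R.r d)
    (hin : ∀ d d' : G.Dart, d.fst ∈ W → d'.fst ∈ W → r'.SameCycle d d') :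
    PMap (Option {v : V // v ∉ W}) G.Dart where
  r := r'
  ι := SimpleGraph.Dart.symm
  inv := SimpleGraph.Dart.symm_involutive
  nofix := fun d h => d.symm_ne h
  t := tt W
  t_r := by
    intro d
    by_cases h : d.fst ∈ W
    · have h1 : (r' d).fst ∈ W := by
        by_contra h2
        exact (mem_r hout d).1 h2 h
      rw [tt_pos h, tt_pos h1]
    · have h1 : (r' d).fst ∉ W := (mem_r hout d).2 h
      rw [tt_neg h, tt_neg h1]
      congr 2
      rw [hout d h, R.fst_r]
  trans := by
    intro d d' h
    by_cases h1 : d.fst ∈ W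
    · by_cases h2 : d'.fst ∈ W
      · exact hin d d' h1 h2
      · rw [tt_pos h1, tt_neg h2] at h
        cases h
    · by_cases h2 : d'.fst ∈ W
      · rw [tt_neg h1, tt_pos h2] at h
        cases h
      · rw [tt_neg h1, tt_neg h2, Option.some.injEq, Subtype.mk.injEq] at h
        have := fin_dart (G := G)
        obtain ⟨n, hn⟩ := (R.trans d d' h).exists_nat_pow_eq
        refine ⟨(n : ℤ), ?_⟩
        rw [zpow_natCast, ← hn]
        have key : ∀ n : ℕ, (r' ^ n) d = (R.r ^ n) d ∧ ((R.r ^ n) d).fst ∉ W := by
          intro n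
          induction n with
          | zero => exact ⟨rfl, h1⟩
          | succ n ih =>
            rw [pow_succ', pow_succ', Perm.mul_apply, Perm.mul_apply, ih.1, hout _ ih.2, R.fst_r]
            exact ⟨rfl, ih.2⟩
        exact (key n).1
  pl := hpl

end

theorem main : StC1 := by
  classical
  intro V _ G R k W r' q hind hpl hout hin hq hk S hS
  have hfG : Finite G.Dart := fin_dart
  have hfH : Finite (HG G W S).Dart := fin_dart
  have := Fintype.ofFinite G.Dart
  have := Fintype.ofFinite (HG G W S).Dart
  -- a choice of neighbours in `W`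
  have hf : ∀ v : V, ∃ w : V, (∃ w ∈ W, G.Adj v w) → w ∈ W ∧ G.Adj v w := by
    intro v
    by_cases h : ∃ w ∈ W, G.Adj v w
    · obtain ⟨w, hw⟩ := h
      exact ⟨w, fun _ => hw⟩
    · exact ⟨v, fun h' => absurd h' h⟩
  choose f hf using hf
  have hc : ∀ d : (HG G W S).Dart, ∃ e : G.Dart,
      (∀ u, d.fst = some u → e.fst = u.1) ∧ (∀ u, d.snd = some u → e.snd = u.1) ∧
      (d.fst = none → e.fst ∈ W ∧ ∀ v, d.snd = some v → e.fst = f v.1) ∧
      (d.snd = none → e.snd ∈ W ∧ ∀ v, d.fst = some v → e.snd = f v.1) := by
    rintro ⟨⟨x, y⟩, h⟩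
    rcases x with _ | u
    · rcases y with _ | v
      · exact (h : False).elim
      · have h1 := hf v.1 h
        refine ⟨⟨(f v.1, v.1), h1.2.symm⟩, ?_, ?_, ?_, ?_⟩
        · intro u hu
          cases hu
        · intro u hu
          cases hu
          rfl
        · intro _
          refine ⟨h1.1, ?_⟩
          intro u hu
          cases hu
          rfl
        · intro hu
          cases hu
    · rcases y with _ | v
      · have h1 := hf u.1 h
        refine ⟨⟨(u.1, f u.1), h1.2⟩, ?_, ?_, ?_, ?_⟩
        · intro u hu
          cases hu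
          rfl
        · intro u hu
          cases hu
        · intro hu
          cases hu
        · intro _
          refine ⟨h1.1, ?_⟩
          intro u hu
          cases hu
          rfl
      · refine ⟨⟨(u.1, v.1), h⟩, ?_, ?_, ?_, ?_⟩
        · intro u hu
          cases hu
          rfl
        · intro u hu
          cases hu
          rfl
        · intro hu
          cases hu
        · intro hu
          cases hu
  choose c hc1 hc2 hc3 hc4 using hc
  have hsym : ∀ d, (c d).symm = c d.symm := by
    intro d
    apply SimpleGraph.Dart.ext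
    apply Prod.ext
    · show (c d).snd = (c d.symm).fst
      rcases hx : d.snd with _ | u
      · rcases hy : d.fst with _ | v
        · exfalso
          have h := d.adj
          have h' : (HG G W S).Adj d.fst d.snd := h
          rw [hx, hy] at h'
          exact h'
        · rw [(hc4 d hx).2 v hy, (hc3 d.symm hx).2 v hy]
      · rw [hc2 d u hx, hc1 d.symm u hx]
    · show (c d).fst = (c d.symm).snd
      rcases hx : d.fst with _ | u
      · rcases hy : d.snd with _ | v
        · exfalso
          have h := d.adj
          have h' : (HG G W S).Adj d.fst d.snd := h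
          rw [hx, hy] at h'
          exact h'
        · rw [(hc3 d hx).2 v hy, (hc4 d.symm hx).2 v hy]
      · rw [hc1 d u hx, hc2 d.symm u hx]
  let g : Option {v : V // v ∈ S} → Option {v : V // v ∉ W} :=
    Option.map fun v => ⟨v.1, hS v.1 v.2⟩
  have hg : Function.Injective g := by
    apply Option.map_injective
    intro u v huv
    exact Subtype.ext (Subtype.mk.inj huv)
  let M := mm R W r' hpl hout hin
  have ht : ∀ d, M.t (c d) = g d.fst := by
    intro d
    show tt W (c d) = g d.fst
    rcases hx : d.fst with _ | u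
    · rw [tt_pos (hc3 d hx).1]
      rfl
    · have h1 := hc1 d u hx
      have h2 : (c d).fst ∉ W := by
        rw [h1]
        exact hS u.1 u.2
      rw [tt_neg h2]
      show some _ = some _
      congr 2
  have hcinj : Function.Injective c := by
    intro d d' h
    apply SimpleGraph.Dart.ext
    apply Prod.ext
    · apply hg
      show g d.fst = g d'.fst
      rw [← ht, ← ht, h]
    · apply hg
      show g d.symm.fst = g d'.symm.fst
      rw [← ht, ← ht, ← hsym, ← hsym, h]
  obtain ⟨R', -, -, hR'⟩ := M.exists_rot g hg c hcinj ht hsym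
  choose N hN1 hN2 using hR'
  have hN1' : ∀ d, c (R'.r d) = (r' ^ (N d + 1)) (c d) := hN1
  have hN2' : ∀ d, ∀ j < N d, (r' ^ (j + 1)) (c d) ∉ Set.range c := hN2
  let T : Set (HG G W S).Dart := {d | q (c (R'.r d)) ≠ q (c d)}
  have hJ : ∀ d : (HG G W S).Dart, ∃ j : ℕ, d ∈ T →
      j ≤ N d ∧ q (r' ((r' ^ j) (c d))) ≠ q ((r' ^ j) (c d)) := by
    intro d
    by_cases hd : d ∈ T
    · by_contra hcon
      push Not at hcon
      have h1 : ∀ j ≤ N d + 1, q ((r' ^ j) (c d)) = q (c d) := by
        intro j
        induction j with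
        | zero =>
          intro _
          simp
        | succ j ih =>
          intro hj
          rw [pow_succ', Perm.mul_apply, (hcon j).2 (by omega), ih (by omega)]
      apply hd
      show q (c (R'.r d)) = q (c d)
      rw [hN1']
      exact h1 _ le_rfl
    · exact ⟨0, fun h => absurd h hd⟩
  choose J hJ using hJ
  have hinj : Set.InjOn (fun d => (r' ^ (J d)) (c d)) T := by
    have key : ∀ d ∈ T, ∀ d' ∈ T, J d ≤ J d' → (r' ^ (J d)) (c d) = (r' ^ (J d')) (c d') →
        d = d' := by
      intro d hd d' hd' hle h
      have h1 : J d' = J d + (J d' - J d) := by omega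
      rw [h1, pow_add, Perm.mul_apply] at h
      have h2 := (r' ^ (J d)).injective h
      rcases Nat.eq_zero_or_pos (J d' - J d) with h3 | h3
      · rw [h3, pow_zero, Perm.one_apply] at h2
        exact hcinj h2
      · exfalso
        have h4 := (hJ d' hd').1
        have h5 := hN2' d' (J d' - J d - 1) (by omega)
        rw [Nat.sub_add_cancel h3, ← h2] at h5
        exact h5 ⟨d, rfl⟩
    intro d hd d' hd' h
    rcases le_total (J d) (J d') with h1 | h1
    · exact key d hd d' hd' h1 h
    · exact (key d' hd' d hd h1 h.symm).symm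
  have hT : T.ncard ≤ k := by
    refine le_trans ?_ hk
    apply Set.ncard_le_ncard_of_injOn (fun d => (r' ^ (J d)) (c d)) _ hinj (Set.toFinite _)
    intro d hd
    exact (hJ d hd).2
  refine ⟨R', T.toFinset.image SimpleGraph.Dart.symm, ?_, ?_⟩
  · refine le_trans Finset.card_image_le ?_
    rw [← Set.ncard_eq_toFinset_card']
    exact hT
  · intro d hodd
    by_contra hcon
    push Not at hcon
    have h1 : ∀ n : ℕ, q (c ((R'.φ ^ n) d)) = q (c d) + n := by
      intro n
      induction n with
      | zero => simp
      | succ n ih =>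
        set e := (R'.φ ^ n) d with he
        have h2 : e.symm ∉ T := by
          intro h3
          refine hcon e ?_ ?_
          · rw [Finset.mem_image]
            exact ⟨e.symm, Set.mem_toFinset.2 h3, SimpleGraph.Dart.symm_symm e⟩
          · rw [he, sameCycle_pow_left]
        have h3 : q (c (R'.r e.symm)) = q (c e.symm) := by
          by_contra h4
          exact h2 h4
        rw [pow_succ', Perm.mul_apply, ← he, R'.φ_apply, h3, ← hsym, hq, ih]
        push_cast
        ring
    have h2 := h1 (Function.minimalPeriod R'.φ d)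
    have h3 : (R'.φ ^ (Function.minimalPeriod R'.φ d)) d = d := by
      rw [← Equiv.Perm.iterate_eq_pow]
      exact Function.iterate_minimalPeriod
    rw [h3] at h2
    have h4 := eq_zero_of_eq_add h2
    rw [ZMod.natCast_eq_zero_iff] at h4
    exact (Nat.not_even_iff_odd.2 hodd) (even_iff_two_dvd.2 h4)

end Pool.Agent.Helper15.OF4.C1
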